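import Mathlib

/-!
# MP_0a3467_an, Q2 for `ℓ = 1`: positivity for any two multiplicative actions

For any two multiplicative actions `S`, `R` on a probability space (no relation between them, in particular they need
not commute and need not be finitely generated) and every set `A` of positive measure,
`liminf 𝔼_{m,n ∈ [N]} μ (A ∩ S_m⁻¹ A ∩ R_{m+n}⁻¹ A) > 0`.
-/

set_option autoImplicit false

open MeasureTheory Filter Topology

namespace Pool.Agent.Results.MP_0a3467_an.TwoActions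

/-- `T` is a multiplicative action on `(Ω, μ)`: for `n ≥ 1` (the value at `0` plays no role) the map `T n`
preserves `μ`, `T 1` is the identity, and `T (m n) = T m ∘ T n` for `m, n ≥ 1`. The maps need not be invertible. -/
structure IsMultAction {Ω : Type*} [MeasurableSpace Ω] (μ : Measure Ω) (T : ℕ → Ω → Ω) : Prop where
  measurePreserving : ∀ n, 1 ≤ n → MeasurePreserving (T n) μ μ
  one_apply : ∀ x, T 1 x = x
  mul_apply : ∀ m n, 1 ≤ m → 1 ≤ n → ∀ x, T (m * n) x = T m (T n x)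

/-- The union of `T_q⁻¹ A` over `1 ≤ q ≤ Q`. -/
def upTo {Ω : Type*} (T : ℕ → Ω → Ω) (A : Set Ω) (Q : ℕ) : Set Ω := ⋃ q ∈ Finset.Icc 1 Q, T q ⁻¹' A

/-- The union of all `T_q⁻¹ A`, `q ≥ 1`. -/
def sat {Ω : Type*} (T : ℕ → Ω → Ω) (A : Set Ω) : Set Ω := ⋃ q : ℕ, T (q + 1) ⁻¹' A

section

variable {Ω : Type*} [MeasurableSpace Ω] {μ : Measure Ω} {T : ℕ → Ω → Ω} {A : Set Ω}

lemma measurable_upTo (hT : IsMultAction μ T) (hA : MeasurableSet A) (Q : ℕ) : MeasurableSet (upTo T A Q) := by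
  refine Finset.measurableSet_biUnion _ fun q hq => ?_
  exact (hT.measurePreserving q (Finset.mem_Icc.mp hq).1).measurable hA

lemma measurable_sat (hT : IsMultAction μ T) (hA : MeasurableSet A) : MeasurableSet (sat T A) :=
  MeasurableSet.iUnion fun q => (hT.measurePreserving (q + 1) (by omega)).measurable hA

lemma upTo_subset_sat (Q : ℕ) : upTo T A Q ⊆ sat T A := by
  intro x hx
  simp only [upTo, Set.mem_iUnion, Finset.mem_Icc] at hx
  obtain ⟨q, hq, hx⟩ := hx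
  refine Set.mem_iUnion.mpr ⟨q - 1, ?_⟩
  have : q - 1 + 1 = q := by omega
  rw [this]
  exact hx

lemma upTo_mono : Monotone (upTo T A) := by
  intro Q Q' h x hx
  simp only [upTo, Set.mem_iUnion, Finset.mem_Icc] at hx ⊢
  obtain ⟨q, hq, hx⟩ := hx
  exact ⟨q, ⟨hq.1, hq.2.trans h⟩, hx⟩

lemma iUnion_upTo : ⋃ Q, upTo T A Q = sat T A := by
  apply Set.Subset.antisymm
  · exact Set.iUnion_subset fun Q => upTo_subset_sat Q
  · intro x hx
    obtain ⟨q, hx⟩ := Set.mem_iUnion.mp hx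
    refine Set.mem_iUnion.mpr ⟨q + 1, ?_⟩
    simp only [upTo, Set.mem_iUnion, Finset.mem_Icc]
    exact ⟨q + 1, ⟨by omega, le_refl _⟩, hx⟩

lemma subset_sat (hT : IsMultAction μ T) : A ⊆ sat T A := by
  intro x hx
  refine Set.mem_iUnion.mpr ⟨0, ?_⟩
  simp only [zero_add, Set.mem_preimage, hT.one_apply]
  exact hx

lemma preimage_sat_subset (hT : IsMultAction μ T) {k : ℕ} (hk : 1 ≤ k) : T k ⁻¹' sat T A ⊆ sat T A := by
  intro x hx
  obtain ⟨q, hx⟩ := Set.mem_iUnion.mp hx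
  refine Set.mem_iUnion.mpr ⟨(q + 1) * k - 1, ?_⟩
  have h1 : 1 ≤ (q + 1) * k := Nat.mul_pos (by omega) hk
  have : (q + 1) * k - 1 + 1 = (q + 1) * k := by omega
  rw [this, Set.mem_preimage, hT.mul_apply _ _ (by omega) hk]
  exact hx

/-- for `x ∈ A` and `k ≥ 1` the point `T_k x` is in `upTo T A Q`, up to a set of measure `μ (sat ∖ upTo)` -/
lemma defect [IsProbabilityMeasure μ] (hT : IsMultAction μ T) (hA : MeasurableSet A) (Q : ℕ) {k : ℕ} (hk : 1 ≤ k) :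
    μ.real (A \ T k ⁻¹' upTo T A Q) ≤ μ.real (sat T A) - μ.real (upTo T A Q) := by
  have hmp := hT.measurePreserving k hk
  have h1 : μ.real (T k ⁻¹' upTo T A Q) = μ.real (upTo T A Q) :=
    hmp.measureReal_preimage (measurable_upTo hT hA Q).nullMeasurableSet
  have h2 : T k ⁻¹' upTo T A Q ⊆ sat T A :=
    (Set.preimage_mono (upTo_subset_sat Q)).trans (preimage_sat_subset hT hk)
  calc μ.real (A \ T k ⁻¹' upTo T A Q) ≤ μ.real (sat T A \ T k ⁻¹' upTo T A Q) :=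
        measureReal_mono (Set.sdiff_subset_sdiff_left (subset_sat hT))
    _ = μ.real (sat T A) - μ.real (T k ⁻¹' upTo T A Q) :=
        measureReal_sdiff h2 (hmp.measurable (measurable_upTo hT hA Q))
    _ = _ := by rw [h1]

lemma exists_Q [IsProbabilityMeasure μ] {η : ℝ} (hη : 0 < η) :
    ∀ᶠ Q in atTop, μ.real (sat T A) - μ.real (upTo T A Q) < η := by
  have h := tendsto_measure_iUnion_atTop (μ := μ) (upTo_mono (T := T) (A := A))
  rw [iUnion_upTo] at h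
  have h' : Tendsto (fun Q => μ.real (upTo T A Q)) atTop (𝓝 (μ.real (sat T A))) :=
    (ENNReal.tendsto_toReal (measure_ne_top μ _)).comp h
  have := h'.eventually (lt_mem_nhds (show μ.real (sat T A) - η < μ.real (sat T A) by linarith))
  filter_upwards [this] with Q hQ
  linarith

end

/-- The average over `(m, n) ∈ [N]²` of `μ (A ∩ S_m⁻¹ A ∩ R_{m+n}⁻¹ A)`. -/
noncomputable def avg {Ω : Type*} [MeasurableSpace Ω] (μ : Measure Ω) (S R : ℕ → Ω → Ω) (A : Set Ω) (N : ℕ) : ℝ :=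
  (∑ m ∈ Finset.Icc 1 N, ∑ n ∈ Finset.Icc 1 N, μ.real (A ∩ S m ⁻¹' A ∩ R (m + n) ⁻¹' A)) / (N : ℝ) ^ 2

section

variable {Ω : Type*} [MeasurableSpace Ω] {μ : Measure Ω} [IsProbabilityMeasure μ] {S R : ℕ → Ω → Ω} {A : Set Ω}

lemma pair_bound (hS : IsMultAction μ S) (hR : IsMultAction μ R) (hA : MeasurableSet A) {Q : ℕ}
    (hQS : μ.real (sat S A) - μ.real (upTo S A Q) < μ.real A / 4)
    (hQR : μ.real (sat R A) - μ.real (upTo R A Q) < μ.real A / 4) {k k' : ℕ} (hk : 1 ≤ k) (hk' : 1 ≤ k') :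
    μ.real A / 2 ≤ ∑ q ∈ Finset.Icc 1 Q, ∑ q' ∈ Finset.Icc 1 Q,
      μ.real (A ∩ S (q * k) ⁻¹' A ∩ R (q' * k') ⁻¹' A) := by
  have h1 := defect hS hA Q hk
  have h2 := defect hR hA Q hk'
  have h3 : A ⊆ (A ∩ S k ⁻¹' upTo S A Q ∩ R k' ⁻¹' upTo R A Q) ∪
      ((A \ S k ⁻¹' upTo S A Q) ∪ (A \ R k' ⁻¹' upTo R A Q)) := by
    intro x hx
    by_cases ha : x ∈ S k ⁻¹' upTo S A Q
    · by_cases hb : x ∈ R k' ⁻¹' upTo R A Q
      · exact Or.inl ⟨⟨hx, ha⟩, hb⟩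
      · exact Or.inr (Or.inr ⟨hx, hb⟩)
    · exact Or.inr (Or.inl ⟨hx, ha⟩)
  have h4 : μ.real A ≤ μ.real (A ∩ S k ⁻¹' upTo S A Q ∩ R k' ⁻¹' upTo R A Q) +
      (μ.real (A \ S k ⁻¹' upTo S A Q) + μ.real (A \ R k' ⁻¹' upTo R A Q)) := by
    refine (measureReal_mono h3).trans ((measureReal_union_le _ _).trans ?_)
    gcongr
    exact measureReal_union_le _ _
  have h5 : A ∩ S k ⁻¹' upTo S A Q ∩ R k' ⁻¹' upTo R A Q ⊆
      ⋃ q ∈ Finset.Icc 1 Q, ⋃ q' ∈ Finset.Icc 1 Q, A ∩ S (q * k) ⁻¹' A ∩ R (q' * k') ⁻¹' A := by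
    rintro x ⟨⟨hx, ha⟩, hb⟩
    simp only [upTo, Set.mem_preimage, Set.mem_iUnion] at ha hb
    obtain ⟨q, hq, ha⟩ := ha
    obtain ⟨q', hq', hb⟩ := hb
    simp only [Set.mem_iUnion]
    refine ⟨q, hq, q', hq', ⟨hx, ?_⟩, ?_⟩
    · rw [Set.mem_preimage, hS.mul_apply _ _ (Finset.mem_Icc.mp hq).1 hk]; exact ha
    · rw [Set.mem_preimage, hR.mul_apply _ _ (Finset.mem_Icc.mp hq').1 hk']; exact hb
  have h6 : μ.real (A ∩ S k ⁻¹' upTo S A Q ∩ R k' ⁻¹' upTo R A Q) ≤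
      ∑ q ∈ Finset.Icc 1 Q, ∑ q' ∈ Finset.Icc 1 Q, μ.real (A ∩ S (q * k) ⁻¹' A ∩ R (q' * k') ⁻¹' A) := by
    refine (measureReal_mono h5 (measure_ne_top _ _)).trans ((measureReal_biUnion_finset_le _ _).trans ?_)
    exact Finset.sum_le_sum fun q _ => measureReal_biUnion_finset_le _ _
  linarith

lemma block_bound (a : ℕ → ℕ → ℝ) (ha : ∀ m l, 0 ≤ a m l) {Q t N : ℕ} (hN : 4 * Q ^ 2 * t ≤ N)
    {q q' : ℕ} (hq : q ∈ Finset.Icc 1 Q) (hq' : q' ∈ Finset.Icc 1 Q) :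
    ∑ k ∈ Finset.Icc 1 t, ∑ k' ∈ Finset.Ioc (Q * t) (4 * Q * t), a (q * k) (q' * k') ≤
      ∑ m ∈ Finset.Icc 1 N, ∑ n ∈ Finset.Icc 1 N, a m (m + n) := by
  rw [Finset.mem_Icc] at hq hq'
  rw [← Finset.sum_product', ← Finset.sum_product']
  have hkey : ∀ p ∈ Finset.Icc 1 t ×ˢ Finset.Ioc (Q * t) (4 * Q * t),
      q * p.1 < q' * p.2 ∧ 1 ≤ q * p.1 ∧ q' * p.2 ≤ N := by
    intro p hp
    rw [Finset.mem_product, Finset.mem_Icc, Finset.mem_Ioc] at hp
    obtain ⟨⟨h1, h2⟩, h3, h4⟩ := hp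
    refine ⟨?_, Nat.mul_pos hq.1 h1, ?_⟩
    · calc q * p.1 ≤ Q * t := Nat.mul_le_mul hq.2 h2
        _ < p.2 := h3
        _ ≤ q' * p.2 := Nat.le_mul_of_pos_left _ hq'.1
    · calc q' * p.2 ≤ Q * (4 * Q * t) := Nat.mul_le_mul hq'.2 h4
        _ = 4 * Q ^ 2 * t := by ring
        _ ≤ N := hN
  have himg : ∑ p ∈ Finset.Icc 1 t ×ˢ Finset.Ioc (Q * t) (4 * Q * t), a (q * p.1) (q' * p.2) =
      ∑ p ∈ (Finset.Icc 1 t ×ˢ Finset.Ioc (Q * t) (4 * Q * t)).image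
        (fun p : ℕ × ℕ => (q * p.1, q' * p.2 - q * p.1)), a p.1 (p.1 + p.2) := by
    rw [Finset.sum_image]
    · refine Finset.sum_congr rfl fun p hp => ?_
      have := (hkey p hp).1
      congr 1
      omega
    · intro p hp p' hp' h
      have h := Prod.mk.inj h
      have h1 := (hkey p hp).1
      have h1' := (hkey p' hp').1
      have h2 : p.1 = p'.1 := Nat.eq_of_mul_eq_mul_left hq.1 h.1
      have h3 : q' * p.2 = q' * p'.2 := by
        have := h.1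
        omega
      exact Prod.ext h2 (Nat.eq_of_mul_eq_mul_left hq'.1 h3)
  rw [himg]
  refine Finset.sum_le_sum_of_subset_of_nonneg ?_ fun _ _ _ => ha _ _
  intro r hr
  obtain ⟨p, hp, rfl⟩ := Finset.mem_image.mp hr
  have := hkey p hp
  simp only [Finset.mem_product, Finset.mem_Icc]
  omega

theorem lower (hS : IsMultAction μ S) (hR : IsMultAction μ R) (hA : MeasurableSet A) (hpos : 0 < μ A) :
    ∃ c : ℝ, 0 < c ∧ ∀ᶠ N in atTop, c ≤ avg μ S R A N := by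
  have hA0 : 0 < μ.real A := ENNReal.toReal_pos hpos.ne' (measure_ne_top _ _)
  obtain ⟨Q, hQ1, hQS, hQR⟩ : ∃ Q : ℕ, 1 ≤ Q ∧ μ.real (sat S A) - μ.real (upTo S A Q) < μ.real A / 4 ∧
      μ.real (sat R A) - μ.real (upTo R A Q) < μ.real A / 4 :=
    ((eventually_ge_atTop 1).and ((exists_Q (by linarith)).and (exists_Q (by linarith)))).exists
  have hQ0 : (0 : ℝ) < Q := by exact_mod_cast hQ1
  refine ⟨μ.real A / (64 * (Q : ℝ) ^ 5), by positivity, ?_⟩
  filter_upwards [eventually_ge_atTop (8 * Q ^ 2)] with N hN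
  set t := N / (4 * Q ^ 2) with ht
  have hQ2 : 0 < 4 * Q ^ 2 := by positivity
  have h1 : 4 * Q ^ 2 * t ≤ N := Nat.mul_div_le N _
  have h2 : N < 4 * Q ^ 2 * (t + 1) := by
    have := Nat.lt_mul_div_succ N hQ2
    simpa [ht] using this
  have h3 : N ≤ 8 * Q ^ 2 * t := by
    have h4 : 1 ≤ t := by
      rw [ht, Nat.one_le_div_iff hQ2]; omega
    nlinarith
  have hN0 : (0 : ℝ) < N := by
    have : 0 < N := lt_of_lt_of_le (by positivity) hN
    exact_mod_cast this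
  set W := ∑ m ∈ Finset.Icc 1 N, ∑ n ∈ Finset.Icc 1 N, μ.real (A ∩ S m ⁻¹' A ∩ R (m + n) ⁻¹' A) with hW
  have h5 : (t : ℝ) * (3 * Q * t) * (μ.real A / 2) ≤ (Q : ℝ) * (Q * W) := by
    calc (t : ℝ) * (3 * Q * t) * (μ.real A / 2)
        = ∑ k ∈ Finset.Icc 1 t, ∑ k' ∈ Finset.Ioc (Q * t) (4 * Q * t), μ.real A / 2 := by
          simp only [Finset.sum_const, Nat.card_Icc, Nat.card_Ioc, nsmul_eq_mul]
          have : 4 * Q * t - Q * t = 3 * Q * t := by
            have : 4 * Q * t = 3 * Q * t + Q * t := by ring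
            omega
          rw [this]
          push_cast
          ring
      _ ≤ ∑ k ∈ Finset.Icc 1 t, ∑ k' ∈ Finset.Ioc (Q * t) (4 * Q * t),
            ∑ q ∈ Finset.Icc 1 Q, ∑ q' ∈ Finset.Icc 1 Q,
              μ.real (A ∩ S (q * k) ⁻¹' A ∩ R (q' * k') ⁻¹' A) := by
          refine Finset.sum_le_sum fun k hk => Finset.sum_le_sum fun k' hk' => ?_
          rw [Finset.mem_Icc] at hk
          rw [Finset.mem_Ioc] at hk'
          exact pair_bound hS hR hA hQS hQR hk.1 (by omega)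
      _ = ∑ q ∈ Finset.Icc 1 Q, ∑ q' ∈ Finset.Icc 1 Q,
            ∑ k ∈ Finset.Icc 1 t, ∑ k' ∈ Finset.Ioc (Q * t) (4 * Q * t),
              μ.real (A ∩ S (q * k) ⁻¹' A ∩ R (q' * k') ⁻¹' A) := by
          have e1 : ∀ k ∈ Finset.Icc 1 t, ∑ k' ∈ Finset.Ioc (Q * t) (4 * Q * t),
              ∑ q ∈ Finset.Icc 1 Q, ∑ q' ∈ Finset.Icc 1 Q,
                μ.real (A ∩ S (q * k) ⁻¹' A ∩ R (q' * k') ⁻¹' A) =
              ∑ q ∈ Finset.Icc 1 Q, ∑ q' ∈ Finset.Icc 1 Q, ∑ k' ∈ Finset.Ioc (Q * t) (4 * Q * t),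
                μ.real (A ∩ S (q * k) ⁻¹' A ∩ R (q' * k') ⁻¹' A) := by
            intro k _
            rw [Finset.sum_comm]
            refine Finset.sum_congr rfl fun q _ => ?_
            rw [Finset.sum_comm]
          rw [Finset.sum_congr rfl e1, Finset.sum_comm]
          refine Finset.sum_congr rfl fun q _ => ?_
          rw [Finset.sum_comm]
      _ ≤ ∑ q ∈ Finset.Icc 1 Q, ∑ q' ∈ Finset.Icc 1 Q, W := by
          refine Finset.sum_le_sum fun q hq => Finset.sum_le_sum fun q' hq' => ?_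
          exact block_bound (fun m l => μ.real (A ∩ S m ⁻¹' A ∩ R l ⁻¹' A))
            (fun _ _ => measureReal_nonneg) h1 hq hq'
      _ = (Q : ℝ) * (Q * W) := by
          simp only [Finset.sum_const, Nat.card_Icc, nsmul_eq_mul]
          simp
  have h6 : (t : ℝ) ^ 2 * μ.real A ≤ Q * W := by
    have h7 : (Q : ℝ) * ((t : ℝ) ^ 2 * μ.real A) ≤ Q * (Q * W) := by
      refine le_trans ?_ h5
      have : (0 : ℝ) ≤ Q * t ^ 2 * μ.real A := by positivity
      nlinarith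
    exact le_of_mul_le_mul_left h7 hQ0
  have h8 : (N : ℝ) ≤ 8 * Q ^ 2 * t := by exact_mod_cast h3
  have h9 : (N : ℝ) ^ 2 ≤ 64 * Q ^ 4 * t ^ 2 := by
    calc (N : ℝ) ^ 2 ≤ (8 * Q ^ 2 * t) ^ 2 := by gcongr
      _ = _ := by ring
  rw [avg, ← hW, div_le_div_iff₀ (by positivity) (by positivity)]
  calc μ.real A * (N : ℝ) ^ 2 ≤ μ.real A * (64 * Q ^ 4 * t ^ 2) := by gcongr
    _ = 64 * Q ^ 4 * (t ^ 2 * μ.real A) := by ring
    _ ≤ 64 * Q ^ 4 * (Q * W) := by gcongr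
    _ = W * (64 * (Q : ℝ) ^ 5) := by ring

end

lemma avg_le_one {Ω : Type*} [MeasurableSpace Ω] (μ : Measure Ω) [IsProbabilityMeasure μ] (f : ℕ → ℕ → Set Ω)
    (N : ℕ) : (∑ m ∈ Finset.Icc 1 N, ∑ n ∈ Finset.Icc 1 N, μ.real (f m n)) / (N : ℝ) ^ 2 ≤ 1 := by
  refine div_le_one_of_le₀ ?_ (by positivity)
  calc ∑ m ∈ Finset.Icc 1 N, ∑ n ∈ Finset.Icc 1 N, μ.real (f m n)
      ≤ ∑ m ∈ Finset.Icc 1 N, ∑ n ∈ Finset.Icc 1 N, (1 : ℝ) :=
        Finset.sum_le_sum fun m _ => Finset.sum_le_sum fun n _ => measureReal_le_one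
    _ = (N : ℝ) ^ 2 := by simp; ring

/-- **Q2 for `ℓ = 1` holds.** (1) For any two multiplicative actions `S`, `R` (of possibly non-invertible maps) on a
probability space and every measurable set `A` of positive measure the averages of
`μ (A ∩ S_m⁻¹ A ∩ R_{m+n}⁻¹ A)` over `(m, n) ∈ [N]²` have a positive lower limit. (2) The same for the averages of
Q2 with `ℓ = 1`, that is for `μ (T_{0,m}⁻¹ A ∩ T_{1,m+n}⁻¹ A)`. -/
theorem result {Ω : Type*} [MeasurableSpace Ω] (μ : Measure Ω) [IsProbabilityMeasure μ] :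
    (∀ (S R : ℕ → Ω → Ω) (A : Set Ω), IsMultAction μ S → IsMultAction μ R → MeasurableSet A → 0 < μ A →
      0 < liminf (avg μ S R A) atTop) ∧
    (∀ (T : Fin 2 → ℕ → Ω → Ω) (A : Set Ω), (∀ j, IsMultAction μ (T j)) → MeasurableSet A → 0 < μ A →
      0 < liminf (fun N : ℕ => (∑ m ∈ Finset.Icc 1 N, ∑ n ∈ Finset.Icc 1 N,
        μ.real (⋂ j : Fin 2, (T j (m + (j : ℕ) * n)) ⁻¹' A)) / (N : ℝ) ^ 2) atTop) := by
  constructor
  · intro S R A hS hR hA hpos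
    obtain ⟨c, hc, h⟩ := lower hS hR hA hpos
    refine lt_of_lt_of_le hc (le_liminf_of_le ?_ h)
    exact Filter.IsBoundedUnder.isCoboundedUnder_ge
      ⟨1, Filter.eventually_map.mpr (Filter.Eventually.of_forall fun N => avg_le_one μ _ N)⟩
  · intro T A hT hA hpos
    obtain ⟨c, hc, h⟩ := lower (hT 0) (hT 1) hA hpos
    refine lt_of_lt_of_le hc (le_liminf_of_le ?_ (h.mono fun N hN => hN.trans ?_))
    · exact Filter.IsBoundedUnder.isCoboundedUnder_ge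
        ⟨1, Filter.eventually_map.mpr (Filter.Eventually.of_forall fun N => avg_le_one μ _ N)⟩
    · refine div_le_div_of_nonneg_right (Finset.sum_le_sum fun m _ => Finset.sum_le_sum fun n _ => ?_)
        (by positivity)
      have hsub : A ∩ T 0 m ⁻¹' A ∩ T 1 (m + n) ⁻¹' A ⊆ ⋂ j : Fin 2, (T j (m + (j : ℕ) * n)) ⁻¹' A := by
        rintro x ⟨⟨_, hx⟩, hy⟩
        refine Set.mem_iInter.mpr fun j => ?_
        fin_cases j
        · simpa using hx
        · simpa using hy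
      exact measureReal_mono hsub (measure_ne_top μ _)

end Pool.Agent.Results.MP_0a3467_an.TwoActions
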